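import Mathlib
import Pool.Agent.Zk12.HD.Stm3

/-!
# Project HD: the class at the base of the tower
-/

set_option autoImplicit false
set_option linter.unusedSectionVars false

open Polynomial

namespace Pool.Agent.Zk17.HD

open Pool.Agent.TH954 Pool.Agent.Zk12.HD Pool.Agent.Zk12.GT

section

variable {k F Ω B : Type} [Field k] [Field F] [Field Ω] [Field B] [Algebra k F] [Algebra F Ω]
  [Algebra k Ω] [Algebra k B] [IsScalarTower k F Ω] [IsAlgClosure F Ω] [IsAlgClosure k B]
  {s : GalSection k F Ω B}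

theorem fix_k (g : B ≃ₐ[k] B) (c : k) : s.s g (algebraMap k Ω c) = algebraMap k Ω c := by
  rw [IsScalarTower.algebraMap_apply k F Ω, AlgEquiv.commutes]

theorem fsq_mul {z w : Ω} (hz : FSq s z) (hw : FSq s w) : FSq s (z * w) := by
  obtain ⟨a, ha, rfl⟩ := hz
  obtain ⟨b, hb, rfl⟩ := hw
  exact ⟨a * b, fun g => by rw [map_mul, ha, hb], by ring⟩

theorem fsq_inv {z : Ω} (hz : FSq s z) : FSq s z⁻¹ := by
  obtain ⟨a, ha, rfl⟩ := hz
  exact ⟨a⁻¹, fun g => by rw [map_inv₀, ha], by rw [inv_pow]⟩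

theorem fsq_sq {z : Ω} (hz : ∀ g, s.s g z = z) : FSq s (z ^ 2) := ⟨z, hz, rfl⟩

theorem fsq_one : FSq s (1 : Ω) := ⟨1, fun g => map_one _, by ring⟩

theorem fsq_cancel {z u : Ω} (hu : ∀ g, s.s g u = u) (hu0 : u ≠ 0) (hz : FSq s (z * u ^ 2)) :
    FSq s z := by
  have h1 := fsq_mul hz (fsq_inv (fsq_sq hu))
  rwa [mul_inv_cancel_right₀ (pow_ne_zero 2 hu0)] at h1

/-- an even number of factors which are equal modulo squares -/
theorem fsq_prod {ι : Type} {u : Ω} (hu : ∀ g, s.s g u = u) (hu0 : u ≠ 0) (A : ι → Ω)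
    (S : Finset ι) (h : ∀ i ∈ S, FSq s (A i * u)) : (Even S.card → FSq s (∏ i ∈ S, A i)) ∧
      (Odd S.card → FSq s ((∏ i ∈ S, A i) * u)) := by
  classical
  induction S using Finset.induction_on with
  | empty => exact ⟨fun _ => by simpa using fsq_one, fun h => by simp at h⟩
  | insert a S ha ih =>
    have ih' := ih fun i hi => h i (Finset.mem_insert_of_mem hi)
    have h1 := h a (Finset.mem_insert_self a S)
    rw [Finset.card_insert_of_notMem ha, Finset.prod_insert ha]
    constructor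
    · intro he
      have ho : Odd S.card := by
        rcases Nat.even_or_odd S.card with h2 | h2
        · exact absurd he (by simpa [Nat.even_add_one] using h2)
        · exact h2
      refine fsq_cancel hu hu0 ?_
      have h4 := fsq_mul h1 (ih'.2 ho)
      convert h4 using 1
      ring
    · intro ho
      have he : Even S.card := by
        rcases Nat.even_or_odd S.card with h2 | h2
        · exact h2
        · exact absurd ho (by simpa [Nat.odd_add_one] using h2)
      have h4 := fsq_mul h1 (ih'.1 he)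
      convert h4 using 1
      ring

end

theorem baseD (h : S_PFIX) : S_BASED := by
  intro k₁ k F Ω B _ _ _ _ _ _ _ _ _ _ _ _ _ _ t₀ hst ht htop D hD hodd s X hX hXk N hN e he hp
  classical
  obtain ⟨i, hi⟩ := h k₁ k F Ω B t₀ hst ht htop D hD hodd s X hX hXk N hN e he hp
  obtain ⟨a, ha⟩ : ∃ a : k₁ →+* Ω, ∀ c, a c = algebraMap k Ω (algebraMap k₁ k c) :=
    ⟨(algebraMap k Ω).comp (algebraMap k₁ k), fun c => rfl⟩
  simp only [← ha] at hi hp ⊢
  have hfix : ∀ (g : B ≃ₐ[k] B) (c : k₁), s.s g (a c) = a c := fun g c => by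
    rw [ha]
    exact fix_k g _
  obtain ⟨p, hpd⟩ : ∃ p : Ω, p = algebraMap k Ω (aeval t₀ D) := ⟨_, rfl⟩
  rw [← hpd] at hp
  have hpfix : ∀ g : B ≃ₐ[k] B, s.s g p = p := fun g => by rw [hpd]; exact fix_k g _
  obtain ⟨κ, hκ⟩ : ∃ κ : k₁, κ = ∏ m ∈ Finset.univ.erase i, (e i - e m) := ⟨_, rfl⟩
  have hκ0 : κ ≠ 0 := by
    rw [hκ, Finset.prod_ne_zero_iff]
    intro m hm
    rw [sub_ne_zero]
    exact fun h0 => (Finset.ne_of_mem_erase hm) (he h0).symm
  refine ⟨i, κ, hκ0, fun l hl => ?_⟩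
  have hA0 : ∀ m, X - a (e m) ≠ 0 := fun m h0 => hXk (algebraMap k₁ k (e m)) (by
    rw [sub_eq_zero, ha] at h0
    exact h0)
  have hAfix : ∀ (m : Fin N) (g : B ≃ₐ[k] B), s.s g (X - a (e m)) = X - a (e m) := fun m g => by
    rw [map_sub, hX, hfix]
  have hd0 : ∀ m, m ≠ i → a (e i - e m) ≠ 0 := fun m hm => by
    rw [_root_.map_ne_zero, sub_ne_zero]
    exact fun h0 => hm (he h0).symm
  -- the product over `m ≠ i`
  obtain ⟨u, hu⟩ : ∃ u : Ω, u = (X - a (e l)) * a (e i - e l) := ⟨_, rfl⟩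
  have hu0 : u ≠ 0 := by
    rw [hu]
    exact mul_ne_zero (hA0 l) (hd0 l hl)
  have hufix : ∀ g : B ≃ₐ[k] B, s.s g u = u := fun g => by
    rw [hu, map_mul, hAfix, hfix]
  have h1 := (fsq_prod hufix hu0 (fun m => (X - a (e m)) * a (e i - e m)) (Finset.univ.erase i)
    (fun m hm => by
      have h2 := hi m l (Finset.ne_of_mem_erase hm) hl
      rw [map_mul] at h2
      convert h2 using 1
      rw [hu]
      ring)).2 (by
      rw [Finset.card_erase_of_mem (Finset.mem_univ i), Finset.card_univ, Fintype.card_fin]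
      have hN1 : 1 ≤ N := Nat.one_le_iff_ne_zero.2 (by
        rintro rfl
        exact i.elim0)
      exact Nat.Even.sub_odd hN1 hN odd_one)
  rw [Finset.prod_mul_distrib, ← map_prod, ← hκ] at h1
  -- `p A_i ∏_{m ≠ i} A_m` is a square
  rw [← Finset.mul_prod_erase _ _ (Finset.mem_univ i)] at hp
  obtain ⟨Q, hQ⟩ : ∃ Q : Ω, Q = ∏ m ∈ Finset.univ.erase i, (X - a (e m)) := ⟨_, rfl⟩
  rw [← hQ] at h1 hp
  have hQ0 : Q ≠ 0 := by
    rw [hQ, Finset.prod_ne_zero_iff]
    exact fun m _ => hA0 m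
  have hQfix : ∀ g : B ≃ₐ[k] B, s.s g Q = Q := fun g => by
    rw [hQ, map_prod]
    exact Finset.prod_congr rfl fun m _ => hAfix m g
  have h2 := fsq_mul hp h1
  have h3 : FSq s (p * (X - a (e i)) * a κ * u) := by
    refine fsq_cancel hQfix hQ0 ?_
    convert h2 using 1
    ring
  have e1 : (X - a (e i))⁻¹ - a (e l - e i)⁻¹ = (X - a (e l)) / ((X - a (e i)) * a (e i - e l)) := by
    have h4 := hA0 i
    have h5 := hd0 l hl
    have h6 : a (e l - e i) = -a (e i - e l) := by rw [← map_neg, neg_sub]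
    rw [map_inv₀, h6]
    have h7 : X - a (e l) = (X - a (e i)) + a (e i - e l) := by
      rw [map_sub]
      ring
    rw [h7]
    field_simp
    ring
  have e2 : algebraMap k Ω (aeval t₀ (C κ * D)) = a κ * p := by
    rw [map_mul, aeval_C, map_mul, ha, hpd]
  rw [e1, e2]
  by_cases hp0 : p = 0
  · rw [hp0, mul_zero, inv_zero, mul_zero]
    exact ⟨0, fun g => map_zero _, by ring⟩
  · have hκ' : a κ ≠ 0 := by
      rw [_root_.map_ne_zero]
      exact hκ0
    refine fsq_cancel (u := a κ * p * (X - a (e i)) * a (e i - e l)) (fun g => ?_) ?_ ?_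
    · rw [map_mul, map_mul, map_mul, hfix, hpfix, hAfix, hfix]
    · exact mul_ne_zero (mul_ne_zero (mul_ne_zero hκ' hp0) (hA0 i)) (hd0 l hl)
    · convert h3 using 1
      rw [hu]
      have h4 := hA0 i
      have h5 := hd0 l hl
      field_simp

end Pool.Agent.Zk17.HD
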